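import Pool.Agent.H137R3.SK.Trans4
import Pool.Agent.H137R3.SK.Example

/-!
# The breadth of the Kauffman bracket of alternating diagrams in `#_g (S¹ × S²)`

For every `g ≥ 0` and every connected alternating diagram `D` in the disk `Σ_g` with `g` holes,
with `n ≥ 1` crossings, without excluded crossings, not contained in a disk with fewer holes and
representing a `ℤ/2`-homologically trivial link,

`B(⟨D⟩) = 4 n + 4 - 4 g - 4 k(D) - 4 k''(D)`

where `k(D)` is the number of crossings adjacent to two distinct external regions and `k''(D)` is
the number of crossings at which one external region occupies two opposite corners.  There are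
diagrams with `k''(D) > 0` from `g = 2` on, so that the formula `4 n + 4 - 4 g - 4 k(D)` holds
exactly when `k''(D) = 0`, and `k(D) + k''(D)`, the number of crossings two of whose corners are
in external regions, is the right correction term.

Idea of the proof.  The regions of an alternating diagram as above are white or black, and all
external regions are white.  The exponent of a coloured state is a sum over the regions of the
state of `χ(R) (ξ(R) - 1)` (up to constants), and `χ(R) ≤ 2 - deg(R)`, with `deg(R)` the number of
boundary circles of `R` (a weighted Euler inequality, proved by induction on the crossings which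
are smoothed in the same way).  Growing the set of regions of colour at most one along circles of
the state gives the upper bounds for the exponents; a loop crossing of a white region of colour at
least two gives an additional gain, by the Jordan curve theorem.  In both extremal directions there
is exactly one coloured state of extremal degree, after the two smoothings of every crossing
between two external corners have been added up, which costs a degree `4` for each.
-/

namespace Pool.Agent.Results.MP_70b928_gt.BracketBreadth

open H137SK

/-- **Breadth formula.** For all `g` and `n`, every connected planar alternating diagram `D` with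
`n` crossings and `g + 1` holes, `ℤ/2`-homologically trivial, with its holes in distinct regions
and without excluded crossings, satisfies `⟨D⟩ ≠ 0` and
`B(⟨D⟩) = 4 n + 4 - 4 g - 4 k(D) - 4 k''(D)`; and there is such a diagram, with `g = 2` and
`n = 3`, for which `B(⟨D⟩) ≠ 4 n + 4 - 4 g - 4 k(D)`. -/
theorem result :
    (∀ (g n : ℕ) (D : Diagram g n), D.Connected → D.Planar → D.Alternating → D.Z2Trivial →
      D.NotInFewerHoles → (∀ c, ¬ D.Excluded c) →
        D.bracket ≠ 0 ∧
        breadth D.bracket = 4 * (n : ℤ) + 4 - 4 * (g : ℤ) - 4 * (D.k : ℤ) - 4 * (D.kOpp : ℤ)) ∧
    (∃ D : Diagram 2 3, D.Connected ∧ D.Planar ∧ D.Alternating ∧ D.Z2Trivial ∧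
      D.NotInFewerHoles ∧ (∀ c, ¬ D.Excluded c) ∧
        D.k = 2 ∧ D.kOpp = 1 ∧ breadth D.bracket = -4 ∧
        breadth D.bracket ≠ 4 * (3 : ℤ) + 4 - 4 * (2 : ℤ) - 4 * (D.k : ℤ)) := by
  constructor
  · intro g n D hconn hplan halt hZ hinj hex
    exact breadth_formula hconn hplan halt hZ hinj hex
  · have h := (breadth_formula Ex.conn Ex.planar Ex.alt Ex.z2 Ex.inj Ex.not_excl).2
    rw [Ex.k_eq, Ex.kOpp_eq] at h
    have h' : breadth Ex.D.bracket = -4 := by
      rw [h]
      norm_num
    refine ⟨Ex.D, Ex.conn, Ex.planar, Ex.alt, Ex.z2, Ex.inj, Ex.not_excl, Ex.k_eq, Ex.kOpp_eq,
      h', ?_⟩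
    rw [h', Ex.k_eq]
    norm_num

end Pool.Agent.Results.MP_70b928_gt.BracketBreadth
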